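import Mathlib

set_option autoImplicit false

/-!
A strictly convex Banach space (isomorphic to `c_0`) with a Daugavet point.
-/

namespace Pool.Agent.Results.MP_7c844e_an.RotundDaugavet

open Filter Topology

/-- Strict convexity. -/
def IsStrictlyConvex (X : Type) [NormedAddCommGroup X] : Prop :=
  ∀ x y : X, ‖x‖ = 1 → ‖y‖ = 1 → ‖x + y‖ = 2 → x = y

/-- `x` is a Daugavet point of `X`. -/
def IsDaugavetPoint {X : Type} [NormedAddCommGroup X] [NormedSpace ℝ X] (x : X) : Prop :=
  ‖x‖ = 1 ∧ ∀ (f : StrongDual ℝ X) (α ε : ℝ), ‖f‖ = 1 → 0 < α → 0 < ε →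
    ∃ y : X, ‖y‖ ≤ 1 ∧ 1 - α < f y ∧ 2 - ε < ‖x - y‖

/-- null sequences -/
abbrev C0 := ZeroAtInftyContinuousMap ℕ ℝ

/-- convergent sequences, written as (limit, null sequence) -/
def X : Type := ℝ × C0

instance : AddCommGroup X := inferInstanceAs (AddCommGroup (ℝ × C0))
instance : Module ℝ X := inferInstanceAs (Module ℝ (ℝ × C0))

/-- small parameters -/
noncomputable def eta (n : ℕ) : ℝ := 1 / ((n : ℝ) + 2)

lemma eta_pos (n : ℕ) : 0 < eta n := by unfold eta; positivity

lemma eta_le (n : ℕ) : eta n ≤ 1 / 2 := by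
  unfold eta
  apply one_div_le_one_div_of_le (by norm_num)
  have : (0 : ℝ) ≤ n := Nat.cast_nonneg n
  linarith

lemma tendsto_eta : Tendsto eta atTop (𝓝 0) := by
  have h := tendsto_one_div_add_atTop_nhds_zero_nat (𝕜 := ℝ)
  refine squeeze_zero (fun n => (eta_pos n).le) (fun n => ?_) h
  unfold eta
  apply one_div_le_one_div_of_le (by positivity)
  linarith

lemma c0_tendsto (u : C0) : Tendsto (fun n : ℕ => u n) atTop (𝓝 0) := by
  have h := u.zero_at_infty'
  rw [cocompact_eq_cofinite, Nat.cofinite_eq_atTop] at h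
  exact h

lemma c0_le (u : C0) (n : ℕ) : |u n| ≤ ‖u‖ := by
  have h := (u.toBCF).norm_coe_le_norm n
  rw [Real.norm_eq_abs] at h
  exact h

lemma memT (u : C0) : Memℓp (fun k : ℕ => (1 / 2 : ℝ) ^ k * u k) 2 := by
  apply memℓp_gen
  have h1 : Summable fun k : ℕ => ‖u‖ ^ 2 * (1 / 4 : ℝ) ^ k :=
    (summable_geometric_of_lt_one (by norm_num) (by norm_num)).mul_left _
  refine Summable.of_nonneg_of_le (fun k => by positivity) (fun k => ?_) h1
  have h2 : ((2 : ENNReal).toReal) = 2 := by norm_num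
  rw [h2, Real.rpow_two, Real.norm_eq_abs, sq_abs, mul_pow, ← pow_mul, mul_comm k 2, pow_mul]
  have h3 : (u k) ^ 2 ≤ ‖u‖ ^ 2 := sq_le_sq.2 (by rw [abs_norm]; exact c0_le u k)
  have h4 : ((1 / 2 : ℝ) ^ 2) ^ k = (1 / 4) ^ k := by norm_num
  rw [h4, mul_comm]
  exact mul_le_mul_of_nonneg_right h3 (by positivity)

/-- a compact injective operator -/
noncomputable def T (u : C0) : lp (fun _ : ℕ => ℝ) 2 := ⟨fun k => (1 / 2 : ℝ) ^ k * u k, memT u⟩

lemma T_add (u v : C0) : T (u + v) = T u + T v := by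
  ext k
  change (1 / 2 : ℝ) ^ k * (u k + v k) = (1 / 2 : ℝ) ^ k * u k + (1 / 2 : ℝ) ^ k * v k
  ring

lemma T_smul (c : ℝ) (u : C0) : T (c • u) = c • T u := by
  ext k
  change (1 / 2 : ℝ) ^ k * (c * u k) = c * ((1 / 2 : ℝ) ^ k * u k)
  ring

lemma T_le (u : C0) : ‖T u‖ ≤ 2 * ‖u‖ := by
  refine lp.norm_le_of_forall_sum_le (by norm_num) (by positivity) fun s => ?_
  have h2 : ((2 : ENNReal).toReal) = 2 := by norm_num
  rw [h2]
  have h3 : ∀ k ∈ s, ‖(T u) k‖ ^ (2 : ℝ) ≤ ‖u‖ ^ 2 * (1 / 2 : ℝ) ^ k := by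
    intro k _
    change ‖(1 / 2 : ℝ) ^ k * u k‖ ^ (2 : ℝ) ≤ _
    rw [Real.rpow_two, Real.norm_eq_abs, sq_abs, mul_pow, ← pow_mul, mul_comm k 2, pow_mul]
    have h4 : (u k) ^ 2 ≤ ‖u‖ ^ 2 := sq_le_sq.2 (by rw [abs_norm]; exact c0_le u k)
    have h5 : ((1 / 2 : ℝ) ^ 2) ^ k ≤ (1 / 2) ^ k :=
      pow_le_pow_left₀ (by norm_num) (by norm_num) k
    rw [mul_comm]
    exact mul_le_mul h4 h5 (by positivity) (by positivity)
  have h6 : ∑ k ∈ s, (1 / 2 : ℝ) ^ k ≤ 2 := by
    have := Summable.sum_le_tsum (f := fun k : ℕ => (1 / 2 : ℝ) ^ k) s (fun _ _ => by positivity)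
      summable_geometric_two
    rwa [tsum_geometric_two] at this
  calc ∑ k ∈ s, ‖(T u) k‖ ^ (2 : ℝ) ≤ ∑ k ∈ s, ‖u‖ ^ 2 * (1 / 2 : ℝ) ^ k := Finset.sum_le_sum h3
    _ = ‖u‖ ^ 2 * ∑ k ∈ s, (1 / 2 : ℝ) ^ k := by rw [Finset.mul_sum]
    _ ≤ ‖u‖ ^ 2 * 2 := mul_le_mul_of_nonneg_left h6 (by positivity)
    _ ≤ (2 * ‖u‖) ^ (2 : ℝ) := by
        rw [Real.rpow_two]
        nlinarith [sq_nonneg ‖u‖]

lemma T_inj {u v : C0} (h : T u = T v) : u = v := by
  ext k
  have h1 : (T u) k = (T v) k := by rw [h]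
  change (1 / 2 : ℝ) ^ k * u k = (1 / 2 : ℝ) ^ k * v k at h1
  exact mul_left_cancel₀ (by positivity) h1

/-- The vector `c e_n`. -/
noncomputable def sg (n : ℕ) (c : ℝ) : C0 where
  toFun := Pi.single n c
  continuous_toFun := continuous_of_discreteTopology
  zero_at_infty' := by
    rw [cocompact_eq_cofinite, Nat.cofinite_eq_atTop]
    refine tendsto_const_nhds.congr' ?_
    filter_upwards [eventually_gt_atTop n] with k hk
    rw [Pi.single_eq_of_ne (by omega)]

lemma sg_self (n : ℕ) (c : ℝ) : sg n c n = c := by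
  change (Pi.single n c : ℕ → ℝ) n = c
  simp

lemma sg_ne {n k : ℕ} (h : k ≠ n) (c : ℝ) : sg n c k = 0 := by
  change (Pi.single n c : ℕ → ℝ) k = 0
  rw [Pi.single_eq_of_ne h]

lemma norm_T_sg (n : ℕ) (c : ℝ) : ‖T (sg n c)‖ = (1 / 2) ^ n * |c| := by
  have h : T (sg n c) = lp.single 2 n ((1 / 2 : ℝ) ^ n * c) := by
    ext k
    rw [lp.single_apply]
    change (1 / 2 : ℝ) ^ k * sg n c k = _
    by_cases hk : k = n
    · subst hk
      rw [sg_self, Pi.single_eq_same]
    · rw [sg_ne hk, Pi.single_eq_of_ne hk, mul_zero]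
  rw [h, lp.norm_single (by norm_num), Real.norm_eq_abs, abs_mul, abs_of_pos (by positivity)]

/-- weighted Hilbertian seminorm -/
noncomputable def W (x : X) : ℝ := ‖T x.2‖

/-- maximum of the limit and a slightly damped coordinate -/
noncomputable def M (n : ℕ) (x : X) : ℝ := max |x.1| ((1 - eta n) * |x.1 + x.2 n|)

/-- the norms -/
noncomputable def PP (n : ℕ) (x : X) : ℝ := √(M n x ^ 2 + (eta n * W x) ^ 2)

/-- the new norm -/
noncomputable def P (x : X) : ℝ := ⨆ n, PP n x

lemma W_nonneg (x : X) : 0 ≤ W x := norm_nonneg _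

lemma W_add (x y : X) : W (x + y) ≤ W x + W y := by
  unfold W
  have : (x + y).2 = x.2 + y.2 := rfl
  rw [this, T_add]
  exact norm_add_le _ _

lemma W_smul (c : ℝ) (x : X) : W (c • x) = |c| * W x := by
  unfold W
  have : (c • x).2 = c • x.2 := rfl
  rw [this, T_smul, norm_smul, Real.norm_eq_abs]

lemma M_nonneg (n : ℕ) (x : X) : 0 ≤ M n x := le_max_of_le_left (abs_nonneg _)

lemma one_sub_eta (n : ℕ) : 0 < 1 - eta n := by linarith [eta_le n]

lemma M_add (n : ℕ) (x y : X) : M n (x + y) ≤ M n x + M n y := by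
  unfold M
  have e1 : (x + y).1 = x.1 + y.1 := rfl
  have e2 : (x + y).2 n = x.2 n + y.2 n := rfl
  rw [e1, e2]
  refine max_le ?_ ?_
  · exact (abs_add_le _ _).trans (add_le_add (le_max_left _ _) (le_max_left _ _))
  · have h1 : |x.1 + y.1 + (x.2 n + y.2 n)| ≤ |x.1 + x.2 n| + |y.1 + y.2 n| := by
      have : x.1 + y.1 + (x.2 n + y.2 n) = (x.1 + x.2 n) + (y.1 + y.2 n) := by ring
      rw [this]; exact abs_add_le _ _
    calc (1 - eta n) * |x.1 + y.1 + (x.2 n + y.2 n)|
        ≤ (1 - eta n) * (|x.1 + x.2 n| + |y.1 + y.2 n|) :=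
          mul_le_mul_of_nonneg_left h1 (one_sub_eta n).le
      _ = (1 - eta n) * |x.1 + x.2 n| + (1 - eta n) * |y.1 + y.2 n| := by ring
      _ ≤ _ := add_le_add (le_max_right _ _) (le_max_right _ _)

lemma M_smul (n : ℕ) (c : ℝ) (x : X) : M n (c • x) = |c| * M n x := by
  unfold M
  have e1 : (c • x).1 = c * x.1 := rfl
  have e2 : (c • x).2 n = c * x.2 n := rfl
  rw [e1, e2, mul_max_of_nonneg _ _ (abs_nonneg c), ← mul_add, abs_mul, abs_mul]
  congr 1
  ring

/-- Minkowski's inequality in the plane. -/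
lemma mink (a b c d : ℝ) :
    √((a + c) ^ 2 + (b + d) ^ 2) ≤ √(a ^ 2 + b ^ 2) + √(c ^ 2 + d ^ 2) := by
  have h1 : a * c + b * d ≤ √(a ^ 2 + b ^ 2) * √(c ^ 2 + d ^ 2) := by
    rw [← Real.sqrt_mul (by positivity)]
    apply Real.le_sqrt_of_sq_le
    nlinarith [sq_nonneg (a * d - b * c)]
  have h2 := Real.sq_sqrt (show 0 ≤ a ^ 2 + b ^ 2 by positivity)
  have h3 := Real.sq_sqrt (show 0 ≤ c ^ 2 + d ^ 2 by positivity)
  apply Real.sqrt_le_iff.2
  constructor
  · positivity
  · nlinarith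

lemma PP_mono {a b c d : ℝ} (ha : 0 ≤ a) (hb : 0 ≤ b) (hac : a ≤ c) (hbd : b ≤ d) :
    √(a ^ 2 + b ^ 2) ≤ √(c ^ 2 + d ^ 2) := by
  apply Real.sqrt_le_sqrt
  have h1 : a ^ 2 ≤ c ^ 2 := by nlinarith
  have h2 : b ^ 2 ≤ d ^ 2 := by nlinarith
  linarith

lemma PP_add_aux (n : ℕ) (x y : X) : PP n (x + y) ≤
    √((M n x + M n y) ^ 2 + (eta n * W x + eta n * W y) ^ 2) := by
  unfold PP
  apply PP_mono (M_nonneg _ _) (mul_nonneg (eta_pos n).le (W_nonneg _)) (M_add n x y)
  have := mul_le_mul_of_nonneg_left (W_add x y) (eta_pos n).le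
  linarith

lemma PP_add (n : ℕ) (x y : X) : PP n (x + y) ≤ PP n x + PP n y :=
  (PP_add_aux n x y).trans (mink _ _ _ _)

lemma PP_smul (n : ℕ) (c : ℝ) (x : X) : PP n (c • x) = |c| * PP n x := by
  unfold PP
  rw [M_smul, W_smul]
  have : (|c| * M n x) ^ 2 + (eta n * (|c| * W x)) ^ 2 =
      |c| ^ 2 * (M n x ^ 2 + (eta n * W x) ^ 2) := by ring
  rw [this, Real.sqrt_mul (by positivity), Real.sqrt_sq (abs_nonneg c)]

lemma PP_nonneg (n : ℕ) (x : X) : 0 ≤ PP n x := Real.sqrt_nonneg _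

lemma M_le_PP (n : ℕ) (x : X) : M n x ≤ PP n x := by
  apply Real.le_sqrt_of_sq_le
  nlinarith [sq_nonneg (eta n * W x)]

lemma PP_le (n : ℕ) (x : X) : PP n x ≤ M n x + eta n * W x := by
  unfold PP
  apply Real.sqrt_le_iff.2
  have h1 := M_nonneg n x
  have h2 := mul_nonneg (eta_pos n).le (W_nonneg x)
  constructor
  · linarith
  · nlinarith [mul_nonneg h1 h2]

lemma M_le (n : ℕ) (x : X) : M n x ≤ |x.1| + |x.2 n| := by
  unfold M
  refine max_le (by linarith [abs_nonneg (x.2 n)]) ?_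
  have h1 := abs_add_le x.1 (x.2 n)
  have h2 := eta_pos n
  have h3 := abs_nonneg (x.1 + x.2 n)
  nlinarith

lemma PP_le' (n : ℕ) (x : X) : PP n x ≤ |x.1| + 3 * ‖x.2‖ := by
  have h1 := PP_le n x
  have h2 := M_le n x
  have h3 := c0_le x.2 n
  have h4 : W x ≤ 2 * ‖x.2‖ := T_le x.2
  have h5 : eta n * W x ≤ 1 * W x :=
    mul_le_mul_of_nonneg_right (by linarith [eta_le n]) (W_nonneg x)
  linarith

lemma bdd (x : X) : BddAbove (Set.range fun n => PP n x) :=
  ⟨_, by rintro _ ⟨n, rfl⟩; exact PP_le' n x⟩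

lemma PP_le_P (n : ℕ) (x : X) : PP n x ≤ P x := le_ciSup (bdd x) n

lemma P_le {x : X} {c : ℝ} (h : ∀ n, PP n x ≤ c) : P x ≤ c := ciSup_le h

lemma P_add (x y : X) : P (x + y) ≤ P x + P y :=
  P_le fun n => (PP_add n x y).trans (add_le_add (PP_le_P n x) (PP_le_P n y))

lemma P_smul (c : ℝ) (x : X) : P (c • x) = |c| * P x := by
  unfold P
  rw [Real.mul_iSup_of_nonneg (abs_nonneg c)]
  simp only [PP_smul]

lemma P_le' (x : X) : P x ≤ |x.1| + 3 * ‖x.2‖ := P_le fun n => PP_le' n x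

lemma abs_fst_le (x : X) : |x.1| ≤ P x :=
  (le_max_left _ _).trans ((M_le_PP 0 x).trans (PP_le_P 0 x))

lemma norm_snd_le (x : X) : ‖x.2‖ ≤ 3 * P x := by
  have h0 : 0 ≤ P x := (abs_nonneg _).trans (abs_fst_le x)
  rw [← ZeroAtInftyContinuousMap.norm_toBCF_eq_norm, BoundedContinuousFunction.norm_le (by positivity)]
  intro n
  change ‖x.2 n‖ ≤ _
  rw [Real.norm_eq_abs]
  have h1 : (1 - eta n) * |x.1 + x.2 n| ≤ P x :=
    (le_max_right _ _).trans ((M_le_PP n x).trans (PP_le_P n x))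
  have h2 := abs_fst_le x
  have h3 : |x.1 + x.2 n| ≤ 2 * P x := by
    have h4 := eta_le n
    have h5 := abs_nonneg (x.1 + x.2 n)
    nlinarith
  have h4 : |x.2 n| ≤ |x.1 + x.2 n| + |x.1| := by
    have : x.2 n = (x.1 + x.2 n) - x.1 := by ring
    calc |x.2 n| = |(x.1 + x.2 n) - x.1| := by rw [← this]
      _ ≤ _ := abs_sub _ _
  linarith

noncomputable instance : NormedAddCommGroup X :=
  AddGroupNorm.toNormedAddCommGroup
    { toFun := P
      map_zero' := by
        have h := P_smul 0 (0 : X)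
        rw [zero_smul] at h
        simpa using h
      add_le' := P_add
      neg' := fun x => by
        have := P_smul (-1) x
        rw [neg_one_smul] at this
        simpa using this
      eq_zero_of_map_eq_zero' := fun x hx => by
        have h1 := abs_fst_le x
        have h2 := norm_snd_le x
        rw [hx] at h1 h2
        have h3 : x.1 = 0 := by simpa using h1
        have h4 : x.2 = 0 := by simpa using h2
        exact Prod.ext h3 h4 }

lemma norm_def (x : X) : ‖x‖ = P x := rfl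

noncomputable instance : NormedSpace ℝ X where
  norm_smul_le c x := by
    rw [norm_def, norm_def, P_smul, Real.norm_eq_abs]

lemma le1 (x : X) : max |x.1| ‖x.2‖ ≤ 4 * P x := by
  have h1 := abs_fst_le x
  have h2 := norm_snd_le x
  have h3 := abs_nonneg x.1
  exact max_le (by linarith) (by linarith)

lemma le2 (x : X) : P x ≤ 4 * max |x.1| ‖x.2‖ := by
  have h1 := P_le' x
  have h2 := le_max_left |x.1| ‖x.2‖
  have h3 := le_max_right |x.1| ‖x.2‖
  linarith

/-- The identity as a linear homeomorphism onto `ℝ × C0`. -/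
noncomputable def iso : X ≃L[ℝ] (ℝ × C0) :=
  LinearEquiv.toContinuousLinearEquivOfBounds
    ({ toFun := fun x => x, invFun := fun x => x, map_add' := fun _ _ => rfl,
       map_smul' := fun _ _ => rfl, left_inv := fun _ => rfl, right_inv := fun _ => rfl } :
      X ≃ₗ[ℝ] (ℝ × C0)) 4 4 (fun x => le1 x) (fun x => le2 x)

instance : CompleteSpace X :=
  (completeSpace_congr (e := iso.toEquiv) iso.isUniformEmbedding).2 inferInstance

lemma tendsto_PP (x : X) : Tendsto (fun n => PP n x) atTop (𝓝 |x.1|) := by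
  have h1 : Tendsto (fun n => M n x) atTop (𝓝 |x.1|) := by
    have h2 : Tendsto (fun n => (1 - eta n) * |x.1 + x.2 n|) atTop (𝓝 ((1 - 0) * |x.1 + 0|)) :=
      (tendsto_const_nhds.sub tendsto_eta).mul
        ((tendsto_const_nhds.add (c0_tendsto x.2)).abs)
    have h3 := (tendsto_const_nhds (x := |x.1|)).max h2
    have h4 : (fun n => M n x) = fun n => max |x.1| ((1 - eta n) * |x.1 + x.2 n|) := rfl
    rw [h4]
    simpa using h3
  have h4 : Tendsto (fun n => √(M n x ^ 2 + (eta n * W x) ^ 2)) atTop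
      (𝓝 √(|x.1| ^ 2 + (0 * W x) ^ 2)) :=
    (((h1.pow 2).add ((tendsto_eta.mul_const (W x)).pow 2))).sqrt
  have h5 : √(|x.1| ^ 2 + (0 * W x) ^ 2) = |x.1| := by
    rw [zero_mul, zero_pow two_ne_zero, add_zero, Real.sqrt_sq (abs_nonneg _)]
  rw [h5] at h4
  exact h4

/-- The supremum is attained, or equal to the modulus of the limit. -/
lemma attained (x : X) : (∃ n, PP n x = P x) ∨ P x = |x.1| := by
  by_contra hcon
  push Not at hcon
  obtain ⟨h1, h2⟩ := hcon
  have h3 : |x.1| < P x := lt_of_le_of_ne (abs_fst_le x) (Ne.symm h2)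
  have h4 : ∀ n, PP n x < P x := fun n => lt_of_le_of_ne (PP_le_P n x) (h1 n)
  obtain ⟨c, hc1, hc2⟩ := exists_between h3
  have h5 : ∀ᶠ n in atTop, PP n x < c := (tendsto_PP x).eventually_lt_const hc1
  obtain ⟨N, hN⟩ := eventually_atTop.1 h5
  have h6 : ∀ K : ℕ, ∃ c' < P x, ∀ n < K, PP n x ≤ c' := by
    intro K
    induction K with
    | zero => exact ⟨c, hc2, fun n hn => by omega⟩
    | succ K ih =>
      obtain ⟨c', h7, h8⟩ := ih
      refine ⟨max c' (PP K x), max_lt h7 (h4 K), fun n hn => ?_⟩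
      rcases Nat.lt_succ_iff_lt_or_eq.1 hn with h | h
      · exact (h8 n h).trans (le_max_left _ _)
      · rw [h]; exact le_max_right _ _
  obtain ⟨c', h7, h8⟩ := h6 N
  have h9 : P x ≤ max c c' := by
    refine P_le fun n => ?_
    rcases lt_or_ge n N with h | h
    · exact (h8 n h).trans (le_max_right _ _)
    · exact (hN n h).le.trans (le_max_left _ _)
  exact absurd h9 (not_le.2 (max_lt hc2 h7))

/-- Strict convexity of each of the norms `PP n`. -/
lemma PP_strict {n : ℕ} {x y : X} (hx : PP n x ≤ 1) (hy : PP n y ≤ 1)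
    (hxy : 2 ≤ PP n (x + y)) : x = y := by
  set a := M n x with ha
  set c := M n y with hc
  set b := eta n * W x with hb
  set d := eta n * W y with hd
  have ha0 : 0 ≤ a := M_nonneg _ _
  have hc0 : 0 ≤ c := M_nonneg _ _
  have hb0 : 0 ≤ b := mul_nonneg (eta_pos n).le (W_nonneg _)
  have hd0 : 0 ≤ d := mul_nonneg (eta_pos n).le (W_nonneg _)
  have hx1 : a ^ 2 + b ^ 2 ≤ 1 := by
    have := Real.sqrt_le_one.1 hx
    exact this
  have hy1 : c ^ 2 + d ^ 2 ≤ 1 := by
    have := Real.sqrt_le_one.1 hy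
    exact this
  set p := M n (x + y) with hp
  set q := eta n * W (x + y) with hq
  have hp0 : 0 ≤ p := M_nonneg _ _
  have hq0 : 0 ≤ q := mul_nonneg (eta_pos n).le (W_nonneg _)
  have hpa : p ≤ a + c := M_add n x y
  have hqb : q ≤ b + d := by
    have := mul_le_mul_of_nonneg_left (W_add x y) (eta_pos n).le
    rw [hq, hb, hd]; linarith
  have hpq : 4 ≤ p ^ 2 + q ^ 2 := by
    have h1 : (2 : ℝ) ≤ √(p ^ 2 + q ^ 2) := hxy
    have h2 := Real.sq_sqrt (show 0 ≤ p ^ 2 + q ^ 2 by positivity)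
    nlinarith
  have hp2 : p ^ 2 ≤ (a + c) ^ 2 := by nlinarith
  have hq2 : q ^ 2 ≤ (b + d) ^ 2 := by nlinarith
  have key : (a - c) ^ 2 + (b - d) ^ 2 ≤ 0 := by nlinarith
  have hac : a = c := by nlinarith [sq_nonneg (a - c), sq_nonneg (b - d)]
  have hbd : b = d := by nlinarith [sq_nonneg (a - c), sq_nonneg (b - d)]
  have hab1 : a ^ 2 + b ^ 2 = 1 := by nlinarith
  have hp3 : p = a + c := by nlinarith
  have hq3 : q = b + d := by nlinarith
  have hW : W x = W y := by
    have := mul_left_cancel₀ (eta_pos n).ne' (show eta n * W x = eta n * W y from hbd)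
    exact this
  have hWs : W (x + y) = W x + W y := by
    have h1 : eta n * W (x + y) = eta n * (W x + W y) := by
      rw [mul_add]; exact hq3
    exact mul_left_cancel₀ (eta_pos n).ne' h1
  have hT : T x.2 = T y.2 := by
    unfold W at hW hWs
    have e : (x + y).2 = x.2 + y.2 := rfl
    rw [e, T_add] at hWs
    have h1 := parallelogram_law_with_norm ℝ (T x.2) (T y.2)
    rw [hWs, hW] at h1
    have h2 : ‖T x.2 - T y.2‖ = 0 := by
      have := norm_nonneg (T x.2 - T y.2)
      nlinarith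
    exact sub_eq_zero.1 (norm_eq_zero.1 h2)
  have h2 : x.2 = y.2 := T_inj hT
  -- the first coordinate
  have h1 : x.1 = y.1 := by
    have hpM : max |x.1 + y.1| ((1 - eta n) * |x.1 + y.1 + (x.2 n + y.2 n)|) = 2 * a := by
      have : p = 2 * a := by rw [hp3, ← hac]; ring
      exact this
    have hx1' : |x.1| ≤ a := le_max_left _ _
    have hx2' : (1 - eta n) * |x.1 + x.2 n| ≤ a := le_max_right _ _
    have hy1' : |y.1| ≤ a := by rw [hac]; exact le_max_left _ _
    have hy2' : (1 - eta n) * |y.1 + y.2 n| ≤ a := by rw [hac]; exact le_max_right _ _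
    have hstrict : ∀ s t m : ℝ, |s| ≤ m → |t| ≤ m → 2 * m ≤ |s + t| → s = t := by
      intro s t m h1 h2 h3
      rw [abs_le] at h1 h2
      rcases le_abs.1 h3 with h | h <;> linarith
    rcases max_choice |x.1 + y.1| ((1 - eta n) * |x.1 + y.1 + (x.2 n + y.2 n)|) with h | h
    · rw [h] at hpM
      exact hstrict _ _ _ hx1' hy1' hpM.ge
    · rw [h] at hpM
      have hpos := one_sub_eta n
      have h3 : x.1 + x.2 n = y.1 + y.2 n := by
        refine hstrict _ _ (a / (1 - eta n)) ?_ ?_ ?_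
        · rw [le_div_iff₀ hpos]; linarith
        · rw [le_div_iff₀ hpos]; linarith
        · have e : x.1 + x.2 n + (y.1 + y.2 n) = x.1 + y.1 + (x.2 n + y.2 n) := by ring
          rw [e, ← mul_div_assoc, div_le_iff₀ hpos]
          linarith
      rw [h2] at h3
      linarith
  exact Prod.ext h1 h2

lemma strict : IsStrictlyConvex X := by
  intro x y hx hy hxy
  rw [norm_def] at hx hy hxy
  rcases attained (x + y) with ⟨n, hn⟩ | h
  · refine PP_strict (n := n) ?_ ?_ ?_
    · rw [← hx]; exact PP_le_P n x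
    · rw [← hy]; exact PP_le_P n y
    · rw [hn, hxy]
  · rw [hxy] at h
    have e : (x + y).1 = x.1 + y.1 := rfl
    rw [e] at h
    have hx1 : |x.1| ≤ 1 := by rw [← hx]; exact abs_fst_le x
    have hy1 : |y.1| ≤ 1 := by rw [← hy]; exact abs_fst_le y
    have habs : |x.1| = 1 ∧ |y.1| = 1 ∧ x.1 = y.1 := by
      have h1 := abs_add_le x.1 y.1
      refine ⟨by linarith, by linarith, ?_⟩
      rw [abs_le] at hx1 hy1
      rcases le_abs.1 h.le with h | h <;> linarith
    have hW : ∀ z : X, P z = 1 → |z.1| = 1 → z.2 = 0 := by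
      intro z hz hz1
      have h1 : PP 0 z ≤ 1 := by rw [← hz]; exact PP_le_P 0 z
      have h2 : M 0 z ^ 2 + (eta 0 * W z) ^ 2 ≤ 1 := Real.sqrt_le_one.1 h1
      have h3 : 1 ≤ M 0 z := by rw [← hz1]; exact le_max_left _ _
      have h4 : (eta 0 * W z) ^ 2 ≤ 0 := by nlinarith
      have h5 : eta 0 * W z = 0 := by nlinarith [sq_nonneg (eta 0 * W z)]
      have h6 : W z = 0 := by
        rcases mul_eq_zero.1 h5 with h | h
        · exact absurd h (eta_pos 0).ne'
        · exact h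
      have h7 : T z.2 = T 0 := by
        have h8 : T z.2 = 0 := norm_eq_zero.1 h6
        have h9 : T (0 : C0) = 0 := by
          have := T_smul 0 (0 : C0)
          simpa using this
        rw [h8, h9]
      exact T_inj h7
    refine Prod.ext habs.2.2 ?_
    rw [hW x hx habs.1, hW y hy habs.2.1]

/-- The Daugavet point. -/
noncomputable def x0 : X := ((1 : ℝ), (0 : C0))

lemma norm_x0 : ‖x0‖ = 1 := by
  rw [norm_def]
  have hW : W x0 = 0 := by
    have h9 : T (0 : C0) = 0 := by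
      have := T_smul 0 (0 : C0)
      simpa using this
    change ‖T (0 : C0)‖ = 0
    rw [h9, norm_zero]
  have hP : ∀ n, PP n x0 = 1 := by
    intro n
    have hM : M n x0 = 1 := by
      change max |(1 : ℝ)| ((1 - eta n) * |(1 : ℝ) + 0|) = 1
      rw [add_zero, abs_one, mul_one]
      exact max_eq_left (by linarith [eta_pos n])
    unfold PP
    rw [hM, hW]
    norm_num
  refine le_antisymm (P_le fun n => (hP n).le) ?_
  rw [← hP 0]; exact PP_le_P 0 x0

/-- unit vectors -/
noncomputable def v (n : ℕ) : X := ((0 : ℝ), sg n 1)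

/-- finite sections of sign vectors -/
noncomputable def bs (s : ℕ → ℝ) (N : ℕ) : C0 where
  toFun := fun k => if k < N then s k else 0
  continuous_toFun := continuous_of_discreteTopology
  zero_at_infty' := by
    rw [cocompact_eq_cofinite, Nat.cofinite_eq_atTop]
    refine tendsto_const_nhds.congr' ?_
    filter_upwards [eventually_ge_atTop N] with k hk
    rw [if_neg (by omega)]

lemma bs_eq (s : ℕ → ℝ) (N : ℕ) :
    (((0 : ℝ), bs s N) : ℝ × C0) = ∑ n ∈ Finset.range N, s n • (((0 : ℝ), sg n 1) : ℝ × C0) := by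
  induction N with
  | zero =>
    rw [Finset.sum_range_zero]
    refine Prod.ext rfl ?_
    ext k
    change (if k < 0 then s k else 0) = (0 : ℝ)
    simp
  | succ N ih =>
    rw [Finset.sum_range_succ, ← ih]
    refine Prod.ext ?_ ?_
    · change (0 : ℝ) = 0 + s N * 0
      ring
    · ext k
      change (if k < N + 1 then s k else 0) = (if k < N then s k else 0) + s N * sg N 1 k
      rcases lt_trichotomy k N with h | h | h
      · rw [if_pos (by omega), if_pos h, sg_ne (by omega), mul_zero, add_zero]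
      · subst h
        rw [if_pos (by omega), if_neg (by omega), sg_self, mul_one, zero_add]
      · rw [if_neg (by omega), if_neg (by omega), sg_ne (by omega), mul_zero, add_zero]

/-- finite sections of sign vectors, as vectors of the space -/
noncomputable def bx (s : ℕ → ℝ) (N : ℕ) : X := ((0 : ℝ), bs s N)

lemma bx_eq (s : ℕ → ℝ) (N : ℕ) : bx s N = ∑ n ∈ Finset.range N, s n • v n := bs_eq s N

lemma weak_null (f : StrongDual ℝ X) : Tendsto (fun n => f (v n)) atTop (𝓝 0) := by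
  have hs : Summable fun n => |f (v n)| := by
    refine summable_of_sum_range_le (c := ‖f‖ * 3) (fun n => abs_nonneg _) fun N => ?_
    set s : ℕ → ℝ := fun n => SignType.sign (f (v n)) with hs
    have h1 : f (bx s N) = ∑ n ∈ Finset.range N, |f (v n)| := by
      rw [bx_eq, map_sum]
      refine Finset.sum_congr rfl fun n _ => ?_
      rw [map_smul, smul_eq_mul, hs]
      exact sign_mul_self _
    have h4 : ‖bx s N‖ ≤ 3 := by
      have h5 : ‖bs s N‖ ≤ 1 := by
        rw [← ZeroAtInftyContinuousMap.norm_toBCF_eq_norm,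
          BoundedContinuousFunction.norm_le (by norm_num)]
        intro k
        change ‖(if k < N then s k else 0 : ℝ)‖ ≤ 1
        split_ifs
        · rw [hs, Real.norm_eq_abs]
          rcases lt_trichotomy (f (v k)) 0 with h | h | h
          · simp [sign_neg h]
          · simp [h]
          · simp [sign_pos h]
        · simp
      have h6 := P_le' (bx s N)
      rw [norm_def]
      refine h6.trans ?_
      change |(0 : ℝ)| + 3 * ‖bs s N‖ ≤ 3
      rw [abs_zero]
      linarith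
    rw [← h1]
    calc f (bx s N) ≤ ‖f (bx s N)‖ := Real.le_norm_self _
      _ ≤ ‖f‖ * ‖bx s N‖ := f.le_opNorm _
      _ ≤ ‖f‖ * 3 := mul_le_mul_of_nonneg_left h4 (norm_nonneg _)
  have h := hs.tendsto_atTop_zero
  exact (tendsto_zero_iff_abs_tendsto_zero _).2 h

lemma daugavet : IsDaugavetPoint x0 := by
  refine ⟨norm_x0, fun f α ε hf hα hε => ?_⟩
  -- a point of the slice
  obtain ⟨y, hy1, hy2⟩ : ∃ y : X, ‖y‖ ≤ 1 ∧ 1 - α / 2 < f y := by
    rcases lt_or_ge (1 - α / 2) 0 with h | h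
    · exact ⟨0, by simp, by simpa using h⟩
    obtain ⟨y, hy1, hy2⟩ := f.exists_lt_apply_of_lt_opNorm (r := 1 - α / 2) (by rw [hf]; linarith)
    rw [Real.norm_eq_abs] at hy2
    rcases le_total 0 (f y) with h0 | h0
    · rw [abs_of_nonneg h0] at hy2
      exact ⟨y, hy1.le, hy2⟩
    · rw [abs_of_nonpos h0] at hy2
      exact ⟨-y, by rw [norm_neg]; exact hy1.le, by rw [map_neg]; exact hy2⟩
  have hyP : P y ≤ 1 := hy1
  have ha : |y.1| ≤ 1 := (abs_fst_le y).trans hyP
  have hu : ‖y.2‖ ≤ 3 := by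
    have := norm_snd_le y
    linarith
  set c : ℕ → ℝ := fun n => -1 - y.1 - y.2 n with hc
  have hcb : ∀ n, |c n| ≤ 5 := by
    intro n
    have h1 := (c0_le y.2 n).trans hu
    rw [abs_le] at ha h1 ⊢
    rw [hc]
    constructor <;> simp only <;> linarith [ha.1, ha.2, h1.1, h1.2]
  set y' : ℕ → X := fun n => y + c n • v n with hy'
  have hy'1 : ∀ n, (y' n).1 = y.1 := by
    intro n
    change y.1 + c n * 0 = y.1
    ring
  have hy'2 : ∀ n k, (y' n).2 k = y.2 k + c n * sg n 1 k := fun n k => rfl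
  have hW' : ∀ n, W (y' n) ≤ W y + 5 * (1 / 2) ^ n := by
    intro n
    have h1 : W (y' n) ≤ W y + W (c n • v n) := W_add _ _
    have h2 : W (v n) = (1 / 2) ^ n := by
      change ‖T (sg n 1)‖ = _
      rw [norm_T_sg]; simp
    rw [W_smul, h2] at h1
    have h3 := mul_le_mul_of_nonneg_right (hcb n) (show (0 : ℝ) ≤ (1 / 2) ^ n by positivity)
    linarith
  have hWy : W y ≤ 6 := by
    have := T_le y.2
    change ‖T y.2‖ ≤ 6
    linarith
  set τ : ℕ → ℝ := fun n => 11 * eta n + 5 * (1 / 2) ^ n with hτ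
  have hτ0 : ∀ n, 0 ≤ τ n := fun n => by
    have := eta_pos n
    rw [hτ]; positivity
  have hτt : Tendsto τ atTop (𝓝 0) := by
    have h1 := (tendsto_eta.const_mul 11).add
      ((tendsto_pow_atTop_nhds_zero_of_lt_one (r := (1 / 2 : ℝ)) (by norm_num)
        (by norm_num)).const_mul 5)
    rw [mul_zero, mul_zero, add_zero] at h1
    exact h1
  have hPy' : ∀ n, ‖y' n‖ ≤ 1 + τ n := by
    intro n
    rw [norm_def]
    refine P_le fun m => ?_
    have hp : (0 : ℝ) ≤ (1 / 2) ^ n := by positivity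
    have hp1 : ((1 : ℝ) / 2) ^ n ≤ 1 := pow_le_one₀ (by norm_num) (by norm_num)
    by_cases hm : m = n
    · subst hm
      have h1 : M m (y' m) ≤ 1 := by
        unfold M
        rw [hy'1, hy'2, sg_self]
        have h2 : y.1 + (y.2 m + c m * 1) = -1 := by rw [hc]; ring
        rw [h2, abs_neg, abs_one, mul_one]
        exact max_le ha (by linarith [eta_pos m])
      have h3 := PP_le m (y' m)
      have h4 : W (y' m) ≤ 11 := by linarith [hW' m]
      have h5 : eta m * W (y' m) ≤ eta m * 11 := mul_le_mul_of_nonneg_left h4 (eta_pos m).le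
      rw [hτ]
      simp only
      linarith
    · have h1 : M m (y' n) = M m y := by
        unfold M
        rw [hy'1, hy'2, sg_ne hm, mul_zero, add_zero]
      have h2 : PP m (y' n) ≤ √((M m y + 0) ^ 2 + (eta m * W y + 5 * (1 / 2) ^ n) ^ 2) := by
        unfold PP
        rw [h1, add_zero]
        refine PP_mono (M_nonneg _ _) (mul_nonneg (eta_pos m).le (W_nonneg _)) le_rfl ?_
        have h3 := mul_le_mul_of_nonneg_left (hW' n) (eta_pos m).le
        have h4 : eta m * (5 * (1 / 2) ^ n) ≤ 1 * (5 * (1 / 2) ^ n) :=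
          mul_le_mul_of_nonneg_right (by linarith [eta_le m]) (by positivity)
        linarith
      have h3 := mink (M m y) (eta m * W y) 0 (5 * (1 / 2) ^ n)
      have h4 : √((0 : ℝ) ^ 2 + (5 * (1 / 2) ^ n) ^ 2) = 5 * (1 / 2) ^ n := by
        rw [zero_pow two_ne_zero, zero_add, Real.sqrt_sq (by positivity)]
      have h5 : √(M m y ^ 2 + (eta m * W y) ^ 2) ≤ 1 := (PP_le_P m y).trans hyP
      rw [h4] at h3
      rw [hτ]
      simp only
      linarith [eta_pos n]
  have hxy' : ∀ n, 2 * (1 - eta n) ≤ ‖x0 - y' n‖ := by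
    intro n
    rw [norm_def]
    refine le_trans ?_ ((le_max_right _ _).trans ((M_le_PP n _).trans (PP_le_P n _)))
    have e1 : (x0 - y' n).1 = 1 - (y' n).1 := rfl
    have e2 : (x0 - y' n).2 n = 0 - (y' n).2 n := rfl
    rw [e1, e2, hy'1, hy'2, sg_self]
    have h2 : 1 - y.1 + (0 - (y.2 n + c n * 1)) = 2 := by rw [hc]; ring
    rw [h2, abs_two]
    linarith
  have hfy' : Tendsto (fun n => f (y' n)) atTop (𝓝 (f y)) := by
    have h1 : Tendsto (fun n => c n * f (v n)) atTop (𝓝 0) := by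
      apply squeeze_zero_norm (a := fun n => 5 * |f (v n)|)
      · intro n
        rw [Real.norm_eq_abs, abs_mul]
        exact mul_le_mul_of_nonneg_right (hcb n) (abs_nonneg _)
      · have := (weak_null f).abs.const_mul 5
        simpa using this
    have h2 := (tendsto_const_nhds (x := f y)).add h1
    rw [add_zero] at h2
    refine h2.congr fun n => ?_
    rw [hy']
    simp only [map_add, map_smul, smul_eq_mul]
  -- normalisation
  set z : ℕ → X := fun n => (1 + τ n)⁻¹ • y' n with hz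
  have hpos : ∀ n, 0 < 1 + τ n := fun n => by linarith [hτ0 n]
  have hz1 : ∀ n, ‖z n‖ ≤ 1 := by
    intro n
    rw [hz]
    simp only
    rw [norm_smul, Real.norm_eq_abs, abs_of_pos (inv_pos.2 (hpos n)), inv_mul_le_iff₀ (hpos n),
      mul_one]
    exact hPy' n
  have hfz : Tendsto (fun n => f (z n)) atTop (𝓝 (f y)) := by
    have h1 : Tendsto (fun n => (1 + τ n)⁻¹) atTop (𝓝 (1 + 0)⁻¹) :=
      (tendsto_const_nhds.add hτt).inv₀ (by norm_num)
    have h2 := h1.mul hfy'
    simp only [add_zero, inv_one, one_mul] at h2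
    refine h2.congr fun n => ?_
    rw [hz]
    simp only [map_smul, smul_eq_mul]
  have hxz : ∀ n, 2 * (1 - eta n) - τ n ≤ ‖x0 - z n‖ := by
    intro n
    have h1 : ‖y' n - z n‖ ≤ τ n := by
      have e : y' n - z n = (1 - (1 + τ n)⁻¹) • y' n := by
        rw [hz]; simp only; rw [sub_smul, one_smul]
      have h2 : 1 - (1 + τ n)⁻¹ = τ n * (1 + τ n)⁻¹ := by
        have := (hpos n).ne'
        field_simp
        ring
      rw [e, h2, norm_smul, Real.norm_eq_abs,
        abs_of_nonneg (mul_nonneg (hτ0 n) (inv_pos.2 (hpos n)).le)]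
      calc τ n * (1 + τ n)⁻¹ * ‖y' n‖ ≤ τ n * (1 + τ n)⁻¹ * (1 + τ n) :=
            mul_le_mul_of_nonneg_left (hPy' n) (mul_nonneg (hτ0 n) (inv_pos.2 (hpos n)).le)
        _ = τ n := by rw [mul_assoc, inv_mul_cancel₀ (hpos n).ne', mul_one]
    have h2 : ‖x0 - y' n‖ ≤ ‖x0 - z n‖ + ‖y' n - z n‖ := by
      have e : x0 - y' n = (x0 - z n) - (y' n - z n) := by abel
      rw [e]
      exact norm_sub_le _ _
    linarith [hxy' n]
  have hlim : Tendsto (fun n => 2 * (1 - eta n) - τ n) atTop (𝓝 2) := by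
    have := ((tendsto_const_nhds (x := (1 : ℝ))).sub tendsto_eta).const_mul 2 |>.sub hτt
    simpa using this
  have e1 : ∀ᶠ n in atTop, 1 - α < f (z n) :=
    hfz.eventually_const_lt (by linarith)
  have e2 : ∀ᶠ n in atTop, 2 - ε < 2 * (1 - eta n) - τ n :=
    hlim.eventually_const_lt (by linarith)
  obtain ⟨n, h1, h2⟩ := (e1.and e2).exists
  exact ⟨z n, hz1 n, h1, h2.trans_le (hxz n)⟩

/-- There is a strictly convex real Banach space, linearly homeomorphic to the product of the real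
line with the space of null sequences, which contains a Daugavet point. -/
theorem result :
    ∃ (Y : Type) (_ : NormedAddCommGroup Y) (_ : NormedSpace ℝ Y), CompleteSpace Y ∧
      IsStrictlyConvex Y ∧ (∃ x : Y, IsDaugavetPoint x) ∧
      Nonempty (Y ≃L[ℝ] (ℝ × ZeroAtInftyContinuousMap ℕ ℝ)) :=
  ⟨X, inferInstance, inferInstance, inferInstance, strict, ⟨x0, daugavet⟩, ⟨iso⟩⟩

end Pool.Agent.Results.MP_7c844e_an.RotundDaugavet
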